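-- Binary words with more than C * n ^ (3/2)
-- non-equivalent abelian squares. For every d there is a word of length 144 * 18 ^ d with at least
-- 81 ^ d pairs (k, a).
import Mathlib

set_option autoImplicit false

namespace H11Squares

/-! ### From a staircase function to a binary word -/

/-- A function with increments `0` or `1` is the prefix-count function of a binary word. -/
theorem word_exists (S : ℕ → ℕ) (h1 : ∀ t, S t ≤ S (t + 1)) (h2 : ∀ t, S (t + 1) ≤ S t + 1)
    (N : ℕ) : ∃ w : List Bool, w.length = N ∧ ∀ i k, i + k ≤ N →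
      ((Finset.Ico i (i + k)).filter (fun j => w.getD j false = true)).card + S i
        = S (i + k) := by
  refine ⟨List.ofFn (fun i : Fin N => decide (S (i.1 + 1) = S i.1 + 1)), by simp, ?_⟩
  intro i k
  induction k with
  | zero => intro _; simp
  | succ k ih =>
    intro hk
    have ih' := ih (by omega)
    have hlt : i + k < N := by omega
    have hins : Finset.Ico i (i + (k + 1)) = insert (i + k) (Finset.Ico i (i + k)) := by
      ext j
      simp only [Finset.mem_Ico, Finset.mem_insert]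
      omega
    rw [hins, Finset.filter_insert, ← Nat.add_assoc]
    have hget : (List.ofFn (fun i : Fin N => decide (S (i.1 + 1) = S i.1 + 1))).getD (i + k) false
        = decide (S (i + k + 1) = S (i + k) + 1) := by
      rw [List.getD_eq_getElem _ _ (by simpa using hlt)]
      simp
    rw [hget]
    have a1 := h1 (i + k)
    have a2 := h2 (i + k)
    by_cases hS : S (i + k + 1) = S (i + k) + 1
    · rw [if_pos (by simpa using hS)]
      rw [Finset.card_insert_of_notMem (by simp)]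
      omega
    · rw [if_neg (by simpa using hS)]
      omega

/-- A partial function (given by its graph `An`) which is monotone and 1-Lipschitz extends to a
function with increments `0` or `1`. -/
theorem extend (An : Set (ℕ × ℕ)) (hne : An.Nonempty)
    (hA : ∀ a ∈ An, ∀ b ∈ An, a.2 ≤ b.2 + (a.1 - b.1)) :
    ∃ S : ℕ → ℕ, (∀ t, S t ≤ S (t + 1)) ∧ (∀ t, S (t + 1) ≤ S t + 1) ∧
      ∀ a ∈ An, S a.1 = a.2 := by
  let V : ℕ → Set ℕ := fun t => {n | ∃ a ∈ An, n = a.2 + (t - a.1)}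
  have hV : ∀ t, (V t).Nonempty := by
    intro t
    obtain ⟨a, ha⟩ := hne
    exact ⟨a.2 + (t - a.1), a, ha, rfl⟩
  refine ⟨fun t => sInf (V t), ?_, ?_, ?_⟩
  · intro t
    obtain ⟨a, ha, h⟩ := Nat.sInf_mem (hV (t + 1))
    have h3 : sInf (V t) ≤ a.2 + (t - a.1) := Nat.sInf_le ⟨a, ha, rfl⟩
    change sInf (V t) ≤ sInf (V (t + 1))
    omega
  · intro t
    obtain ⟨a, ha, h⟩ := Nat.sInf_mem (hV t)
    have h3 : sInf (V (t + 1)) ≤ a.2 + (t + 1 - a.1) := Nat.sInf_le ⟨a, ha, rfl⟩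
    change sInf (V (t + 1)) ≤ sInf (V t) + 1
    omega
  · intro a ha
    have h3 : sInf (V a.1) ≤ a.2 + (a.1 - a.1) := Nat.sInf_le ⟨a, ha, rfl⟩
    obtain ⟨b, hb, h⟩ := Nat.sInf_mem (hV a.1)
    have h4 := hA a ha b hb
    change sInf (V a.1) = a.2
    omega

/-! ### The digit construction -/

/-- Read the binary digits of `n` in base `3`. -/
def tern : ℕ → ℕ
  | 0 => 0
  | n + 1 => 3 * tern ((n + 1) / 2) + (n + 1) % 2

theorem tern_eq (n : ℕ) : tern n = 3 * tern (n / 2) + n % 2 := by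
  cases n with
  | zero => simp [tern]
  | succ n => rw [tern]

/-- The positions of the digit `1` in the ternary expansion of `c`, as a binary number. -/
def PP : ℕ → ℕ
  | 0 => 0
  | n + 1 => 2 * PP ((n + 1) / 3) + (if (n + 1) % 3 = 1 then 1 else 0)

/-- The positions of the digit `2` in the ternary expansion of `c`, as a binary number. -/
def QQ : ℕ → ℕ
  | 0 => 0
  | n + 1 => 2 * QQ ((n + 1) / 3) + (if (n + 1) % 3 = 2 then 1 else 0)

theorem PP_eq (n : ℕ) : PP n = 2 * PP (n / 3) + (if n % 3 = 1 then 1 else 0) := by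
  cases n with
  | zero => simp [PP]
  | succ n => rw [PP]

theorem QQ_eq (n : ℕ) : QQ n = 2 * QQ (n / 3) + (if n % 3 = 2 then 1 else 0) := by
  cases n with
  | zero => simp [QQ]
  | succ n => rw [QQ]

theorem tern_two_mul_add (b e : ℕ) (he : e ≤ 1) : tern (2 * b + e) = 3 * tern b + e := by
  rw [tern_eq]
  have h1 : (2 * b + e) / 2 = b := by omega
  have h2 : (2 * b + e) % 2 = e := by omega
  rw [h1, h2]

theorem tern_PP_add_QQ (c : ℕ) : tern (PP c + QQ c) = tern (PP c) + tern (QQ c) := by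
  induction c using Nat.strong_induction_on with
  | _ c ih =>
    rcases Nat.eq_zero_or_pos c with h0 | h0
    · subst h0; simp [PP, QQ, tern]
    · have ih' := ih (c / 3) (by omega)
      rw [PP_eq c, QQ_eq c]
      have hr : c % 3 = 0 ∨ c % 3 = 1 ∨ c % 3 = 2 := by omega
      rcases hr with hr | hr | hr
      · simp only [hr]
        norm_num
        have e1 : 2 * PP (c / 3) + 2 * QQ (c / 3) = 2 * (PP (c / 3) + QQ (c / 3)) + 0 := by ring
        have e2 := tern_two_mul_add (PP (c / 3)) 0 (by omega)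
        have e3 := tern_two_mul_add (QQ (c / 3)) 0 (by omega)
        simp only [Nat.add_zero] at e2 e3
        rw [e1, tern_two_mul_add _ _ (by omega), ih', e2, e3]
        ring
      · simp only [hr]
        norm_num
        have e1 : 2 * PP (c / 3) + 1 + 2 * QQ (c / 3) = 2 * (PP (c / 3) + QQ (c / 3)) + 1 := by ring
        have e3 := tern_two_mul_add (QQ (c / 3)) 0 (by omega)
        simp only [Nat.add_zero] at e3
        rw [e1, tern_two_mul_add _ _ (by omega), ih', tern_two_mul_add _ _ (by omega), e3]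
        ring
      · simp only [hr]
        norm_num
        have e1 : 2 * PP (c / 3) + (2 * QQ (c / 3) + 1) = 2 * (PP (c / 3) + QQ (c / 3)) + 1 := by
          ring
        have e2 := tern_two_mul_add (PP (c / 3)) 0 (by omega)
        simp only [Nat.add_zero] at e2
        rw [e1, tern_two_mul_add _ _ (by omega), ih', e2, tern_two_mul_add _ _ (by omega)]
        ring

theorem PP_add_QQ_lt (d c : ℕ) (h : c < 3 ^ d) : PP c + QQ c < 2 ^ d := by
  induction d generalizing c with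
  | zero =>
    have : c = 0 := by simpa using h
    subst this; simp [PP, QQ]
  | succ d ih =>
    have h1 : c / 3 < 3 ^ d := by
      rw [pow_succ] at h
      omega
    have := ih _ h1
    rw [PP_eq c, QQ_eq c, pow_succ]
    have hr : c % 3 = 0 ∨ c % 3 = 1 ∨ c % 3 = 2 := by omega
    rcases hr with hr | hr | hr <;> simp only [hr] <;> norm_num <;> omega

theorem two_tern_lt (d b : ℕ) (h : b < 2 ^ d) : 2 * tern b < 3 ^ d := by
  induction d generalizing b with
  | zero =>
    have : b = 0 := by simpa using h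
    subst this; simp [tern]
  | succ d ih =>
    have h1 : b / 2 < 2 ^ d := by
      rw [pow_succ] at h
      omega
    have := ih _ h1
    rw [tern_eq b, pow_succ]
    omega

theorem diff_inj (c c' : ℕ)
    (h : (tern (PP c) : ℤ) - tern (QQ c) = (tern (PP c') : ℤ) - tern (QQ c')) : c = c' := by
  induction c using Nat.strong_induction_on generalizing c' with
  | _ c ih =>
    -- values of the ternary readings
    have key : ∀ n : ℕ, (tern (PP n) : ℤ) - tern (QQ n) =
        3 * ((tern (PP (n / 3)) : ℤ) - tern (QQ (n / 3))) +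
          (if n % 3 = 1 then 1 else 0) - (if n % 3 = 2 then 1 else 0) := by
      intro n
      rw [PP_eq n, QQ_eq n]
      rw [tern_two_mul_add _ _ (by split_ifs <;> omega),
        tern_two_mul_add _ _ (by split_ifs <;> omega)]
      push_cast
      ring
    have hc := key c
    have hc' := key c'
    rw [hc, hc'] at h
    have hr : c % 3 = c' % 3 ∧
        (tern (PP (c / 3)) : ℤ) - tern (QQ (c / 3)) =
          (tern (PP (c' / 3)) : ℤ) - tern (QQ (c' / 3)) := by
      have r1 : c % 3 = 0 ∨ c % 3 = 1 ∨ c % 3 = 2 := by omega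
      have r2 : c' % 3 = 0 ∨ c' % 3 = 1 ∨ c' % 3 = 2 := by omega
      rcases r1 with r1 | r1 | r1 <;> rcases r2 with r2 | r2 | r2 <;>
        simp only [r1, r2] at h ⊢ <;> norm_num at h ⊢ <;> omega
    rcases Nat.eq_zero_or_pos c with h0 | h0
    · subst h0
      -- then `c' = 0` as well: strong induction on `c'`
      by_contra hne
      have hz : ∀ m : ℕ, 0 < m → (tern (PP m) : ℤ) - tern (QQ m) ≠ 0 := by
        intro m
        induction m using Nat.strong_induction_on with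
        | _ m ihm =>
          intro hm hm0
          rw [key m] at hm0
          have r1 : m % 3 = 0 ∨ m % 3 = 1 ∨ m % 3 = 2 := by omega
          rcases r1 with r1 | r1 | r1
          · simp only [r1] at hm0
            norm_num at hm0
            exact ihm (m / 3) (by omega) (by omega) (by omega)
          · simp only [r1] at hm0
            norm_num at hm0
            omega
          · simp only [r1] at hm0
            norm_num at hm0
            omega
      have : (tern (PP c') : ℤ) - tern (QQ c') = 0 := by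
        rw [hc', ← h]
        simp [PP, QQ, tern]
      exact hz c' (by omega) this
    · have := ih (c / 3) (by omega) (c' / 3) hr.2
      omega

/-! ### The anchors -/

section Anchors

variable (d s : ℕ)

/-- Points of the first kind: height constant on each cell. -/
def Anc1 : Set (ℕ × ℕ) :=
  {a | ∃ b r, b < 2 ^ d ∧ r < 6 * s ^ 2 + 2 * s ∧
    a = (12 * s ^ 2 * (2 * b) + r, (s + 1) * (2 * tern b))}

/-- Points of the second kind: fast saw-tooth. -/
def Anc2 : Set (ℕ × ℕ) :=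
  {a | ∃ b x e, b < 2 ^ d ∧ e ≤ s ∧ 2 * s * x + e < 6 * s ^ 2 + 2 * s ∧
    a = (12 * s ^ 2 * (2 * 2 ^ d + b) + (2 * s * x + e), (s + 1) * tern b + e)}

/-- Points of the third kind: slow staircase. -/
def Anc3 : Set (ℕ × ℕ) :=
  {a | ∃ b y z, b < 2 ^ d ∧ y ≤ s ∧ z < 2 * s ∧
    a = (12 * s ^ 2 * (4 * 2 ^ d + 2 * b) + (2 * s ^ 2 + 4 * s * y + z),
      (s + 1) * (2 * tern b) + 2 * y)}

/-- All prescribed points (time, height). -/
def Anc : Set (ℕ × ℕ) := Anc1 d s ∪ Anc2 d s ∪ Anc3 d s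

/-- Every anchor lies in some cell `j`, at a small local coordinate `r`, with a small height. -/
theorem anc_cell (hs : 3 ^ d ≤ s) (a : ℕ × ℕ) (ha : a ∈ Anc d s) :
    ∃ j r, a.1 = 12 * s ^ 2 * j + r ∧ r < 6 * s ^ 2 + 2 * s ∧ a.2 ≤ s ^ 2 + 3 * s ∧
      (((a ∈ Anc1 d s) ∧ j < 2 * 2 ^ d) ∨ ((a ∈ Anc2 d s) ∧ 2 * 2 ^ d ≤ j ∧ j < 4 * 2 ^ d) ∨
        ((a ∈ Anc3 d s) ∧ 4 * 2 ^ d ≤ j)) := by
  have hs1 : 1 ≤ s := le_trans (Nat.one_le_pow _ _ (by norm_num)) hs
  rcases ha with (ha | ha) | ha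
  · obtain ⟨b, r, hb, hr, rfl⟩ := ha
    refine ⟨2 * b, r, rfl, hr, ?_, Or.inl ⟨⟨b, r, hb, hr, rfl⟩, by omega⟩⟩
    have h1 := two_tern_lt d b hb
    have h2 : 2 * tern b ≤ s := by omega
    calc (s + 1) * (2 * tern b) ≤ (s + 1) * s := Nat.mul_le_mul_left _ h2
      _ ≤ s ^ 2 + 3 * s := by nlinarith
  · obtain ⟨b, x, e, hb, he, hr, rfl⟩ := ha
    refine ⟨2 * 2 ^ d + b, 2 * s * x + e, rfl, hr, ?_,
      Or.inr (Or.inl ⟨⟨b, x, e, hb, he, hr, rfl⟩, by omega, by omega⟩)⟩
    have h1 := two_tern_lt d b hb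
    have h2 : tern b ≤ s := by omega
    have h3 : (s + 1) * tern b ≤ (s + 1) * s := Nat.mul_le_mul_left _ h2
    change (s + 1) * tern b + e ≤ s ^ 2 + 3 * s
    nlinarith
  · obtain ⟨b, y, z, hb, hy, hz, rfl⟩ := ha
    refine ⟨4 * 2 ^ d + 2 * b, 2 * s ^ 2 + 4 * s * y + z, rfl, ?_, ?_,
      Or.inr (Or.inr ⟨⟨b, y, z, hb, hy, hz, rfl⟩, by omega⟩)⟩
    · have : 4 * s * y ≤ 4 * s * s := Nat.mul_le_mul_left _ hy
      nlinarith
    · have h1 := two_tern_lt d b hb
      have h2 : 2 * tern b ≤ s := by omega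
      have h3 : (s + 1) * (2 * tern b) ≤ (s + 1) * s := Nat.mul_le_mul_left _ h2
      change (s + 1) * (2 * tern b) + 2 * y ≤ s ^ 2 + 3 * s
      nlinarith

/-- uniqueness of the cell -/
theorem cell_unique (L j j' r r' : ℕ) (hr : r < L) (hr' : r' < L) (h : L * j + r = L * j' + r') :
    j = j' ∧ r = r' := by
  have hL : 0 < L := by omega
  have h1 : (L * j + r) / L = j := by
    rw [Nat.mul_add_div hL, Nat.div_eq_of_lt hr, Nat.add_zero]
  have h2 : (L * j' + r') / L = j' := by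
    rw [Nat.mul_add_div hL, Nat.div_eq_of_lt hr', Nat.add_zero]
  have h3 : j = j' := by rw [← h1, ← h2, h]
  subst h3
  exact ⟨rfl, by omega⟩

/-- The prescribed heights are 1-Lipschitz. -/
theorem anc_lip (hs : 3 ^ d ≤ s) (a b : ℕ × ℕ) (ha : a ∈ Anc d s) (hb : b ∈ Anc d s) :
    a.2 ≤ b.2 + (a.1 - b.1) + (b.1 - a.1) := by
  have hs1 : 1 ≤ s := le_trans (Nat.one_le_pow _ _ (by norm_num)) hs
  have hs2 : s ≤ s ^ 2 := by nlinarith
  obtain ⟨j, r, h1, h2, h3, h4⟩ := anc_cell d s hs a ha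
  obtain ⟨j', r', h1', h2', h3', h4'⟩ := anc_cell d s hs b hb
  rcases lt_trichotomy j j' with hj | hj | hj
  · -- different cells
    have h5 : 12 * s ^ 2 * j + 12 * s ^ 2 ≤ 12 * s ^ 2 * j' := by
      calc 12 * s ^ 2 * j + 12 * s ^ 2 = 12 * s ^ 2 * (j + 1) := by ring
        _ ≤ 12 * s ^ 2 * j' := Nat.mul_le_mul_left _ hj
    omega
  · -- the same cell, hence the same kind
    subst hj
    rcases h4 with ⟨k, hk⟩ | ⟨k, hk, hk2⟩ | ⟨k, hk⟩
    · rcases h4' with ⟨k', hk'⟩ | ⟨k', hk', hk2'⟩ | ⟨k', hk'⟩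
      · obtain ⟨b1, r1, hb1, hr1, e1⟩ := k
        obtain ⟨b2, r2, hb2, hr2, e2⟩ := k'
        have c1 := cell_unique (12 * s ^ 2) (2 * b1) j r1 r (by omega) (by omega)
          (by rw [← h1, e1])
        have c2 := cell_unique (12 * s ^ 2) (2 * b2) j r2 r' (by omega) (by omega)
          (by rw [← h1', e2])
        have : b1 = b2 := by omega
        subst this
        rw [e1, e2]
        simp only
        omega
      · omega
      · omega
    · rcases h4' with ⟨k', hk'⟩ | ⟨k', hk', hk2'⟩ | ⟨k', hk'⟩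
      · omega
      · obtain ⟨b1, x1, e1, hb1, he1, hr1, f1⟩ := k
        obtain ⟨b2, x2, e2, hb2, he2, hr2, f2⟩ := k'
        have c1 := cell_unique (12 * s ^ 2) (2 * 2 ^ d + b1) j (2 * s * x1 + e1) r
          (by omega) (by omega) (by rw [← h1, f1])
        have c2 := cell_unique (12 * s ^ 2) (2 * 2 ^ d + b2) j (2 * s * x2 + e2) r'
          (by omega) (by omega) (by rw [← h1', f2])
        have : b1 = b2 := by omega
        subst this
        rw [f1, f2]
        simp only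
        rcases lt_trichotomy x1 x2 with hx | hx | hx
        · have : 2 * s * x1 + 2 * s ≤ 2 * s * x2 := by
            calc 2 * s * x1 + 2 * s = 2 * s * (x1 + 1) := by ring
              _ ≤ 2 * s * x2 := Nat.mul_le_mul_left _ hx
          omega
        · subst hx
          omega
        · have : 2 * s * x2 + 2 * s ≤ 2 * s * x1 := by
            calc 2 * s * x2 + 2 * s = 2 * s * (x2 + 1) := by ring
              _ ≤ 2 * s * x1 := Nat.mul_le_mul_left _ hx
          omega
      · omega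
    · rcases h4' with ⟨k', hk'⟩ | ⟨k', hk', hk2'⟩ | ⟨k', hk'⟩
      · omega
      · omega
      · obtain ⟨b1, y1, z1, hb1, hy1, hz1, f1⟩ := k
        obtain ⟨b2, y2, z2, hb2, hy2, hz2, f2⟩ := k'
        have hy1' : 4 * s * y1 ≤ 4 * s ^ 2 := by nlinarith
        have hy2' : 4 * s * y2 ≤ 4 * s ^ 2 := by nlinarith
        have c1 := cell_unique (12 * s ^ 2) (4 * 2 ^ d + 2 * b1) j (2 * s ^ 2 + 4 * s * y1 + z1) r
          (by omega) (by omega) (by rw [← h1, f1])
        have c2 := cell_unique (12 * s ^ 2) (4 * 2 ^ d + 2 * b2) j (2 * s ^ 2 + 4 * s * y2 + z2) r'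
          (by omega) (by omega) (by rw [← h1', f2])
        have : b1 = b2 := by omega
        subst this
        rw [f1, f2]
        simp only
        rcases lt_trichotomy y1 y2 with hx | hx | hx
        · omega
        · subst hx
          omega
        · have : 4 * s * y2 + 2 * s * (y1 - y2) + 2 * s ≤ 4 * s * y1 := by
            obtain ⟨t, rfl⟩ := Nat.exists_eq_add_of_lt hx
            have e : y2 + t + 1 - y2 = t + 1 := by omega
            rw [e]
            nlinarith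
          have h6 : 2 * (y1 - y2) ≤ 2 * s * (y1 - y2) := by
            have := Nat.mul_le_mul_right (2 * (y1 - y2)) hs1
            nlinarith
          omega
  · have h5 : 12 * s ^ 2 * j' + 12 * s ^ 2 ≤ 12 * s ^ 2 * j := by
      calc 12 * s ^ 2 * j' + 12 * s ^ 2 = 12 * s ^ 2 * (j' + 1) := by ring
        _ ≤ 12 * s ^ 2 * j := Nat.mul_le_mul_left _ hj
    omega

end Anchors

/-- The set of pairs `(k, a)` in the statement. -/
def pairs (w : List Bool) : Set (ℕ × ℕ) :=
  {p : ℕ × ℕ | ∃ i : ℕ, 1 ≤ p.1 ∧ i + 2 * p.1 ≤ w.length ∧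
          ((Finset.Ico i (i + p.1)).filter (fun j => w.getD j false = true)).card = p.2 ∧
          ((Finset.Ico (i + p.1) (i + 2 * p.1)).filter (fun j => w.getD j false = true)).card = p.2}

theorem pairs_finite (w : List Bool) : (pairs w).Finite := by
  apply Set.Finite.subset (Finset.finite_toSet
    (Finset.range (w.length + 1) ×ˢ Finset.range (w.length + 1)))
  rintro ⟨k, a⟩ ⟨i, h1, h2, h3, h4⟩
  simp only [Finset.coe_product, Finset.coe_range, Set.mem_prod, Set.mem_Iio] at *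
  have h5 : a ≤ k := by
    rw [← h3]
    calc _ ≤ (Finset.Ico i (i + k)).card := Finset.card_filter_le _ _
      _ = k := by simp
  omega

/-- The pair attached to the parameters. -/
def f (d s : ℕ) (x : ℕ × ℕ × ℕ) : ℕ × ℕ :=
  (2 * ((12 * s ^ 2 * (2 * 2 ^ d + PP x.1) + x.2.1) - 12 * s ^ 2 * QQ x.1),
    (12 * s ^ 2 * (2 * 2 ^ d + PP x.1) + x.2.1 + (s + 1) * tern (PP x.1) + x.2.2)
      - (12 * s ^ 2 * QQ x.1 + (s + 1) * tern (QQ x.1)))

theorem bounds (d s c : ℕ) (hs : 3 ^ d ≤ s) (hc : c < 3 ^ d) :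
    12 * s ^ 2 * QQ c + (s + 1) * tern (QQ c) + 1 ≤ 12 * s ^ 2 * (2 * 2 ^ d + PP c) ∧
    12 * s ^ 2 * QQ c + 1 ≤ 12 * s ^ 2 * (2 * 2 ^ d + PP c) := by
  have hs1 : 1 ≤ s := le_trans (Nat.one_le_pow _ _ (by norm_num)) hs
  have hpq := PP_add_QQ_lt d c hc
  have hq := two_tern_lt d (QQ c) (by omega)
  have h1 : (s + 1) * tern (QQ c) ≤ (s + 1) * s := Nat.mul_le_mul_left _ (by omega)
  have h2 : 12 * s ^ 2 * (QQ c + 1) ≤ 12 * s ^ 2 * (2 * 2 ^ d + PP c) :=
    Nat.mul_le_mul_left _ (by omega)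
  constructor <;> nlinarith

theorem sep_lemma (s y y' : ℕ) (P Q P' Q' : ℕ) (hy : y < s + 1) (hy' : y' < s + 1)
    (e2 : (s + 1) * P + y + (s + 1) * Q' = (s + 1) * P' + y' + (s + 1) * Q) :
    P + Q' = P' + Q ∧ y = y' := by
  have e : (s + 1) * (P + Q') + y = (s + 1) * (P' + Q) + y' := by
    rw [Nat.mul_add, Nat.mul_add]; omega
  exact cell_unique (s + 1) (P + Q') (P' + Q) y y' hy hy' e

theorem fin_lemma (X X' Y Y' A B A' B' k k' y y' : ℕ)
    (b1 : Y + B + 1 ≤ X) (b1' : Y' + B' + 1 ≤ X')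
    (h1 : 2 * (X + k - Y) = 2 * (X' + k' - Y'))
    (h2 : X + k + A + y - (Y + B) = X' + k' + A' + y' - (Y' + B')) :
    X + k + Y' = X' + k' + Y ∧ A + y + B' = A' + y' + B := by
  omega

theorem f_injOn (d s : ℕ) (hs : 3 ^ d ≤ s) :
    Set.InjOn (f d s)
      ((Finset.range (3 ^ d) ×ˢ Finset.range (s ^ 2) ×ˢ Finset.range (s + 1) :
        Finset (ℕ × ℕ × ℕ)) : Set (ℕ × ℕ × ℕ)) := by
  rintro ⟨c, k, y⟩ hx ⟨c', k', y'⟩ hx' h
  simp only [Finset.coe_product, Finset.coe_range, Set.mem_prod, Set.mem_Iio] at hx hx'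
  obtain ⟨hc, hk, hy⟩ := hx
  obtain ⟨hc', hk', hy'⟩ := hx'
  obtain ⟨b1, b2⟩ := bounds d s c hs hc
  obtain ⟨b1', b2'⟩ := bounds d s c' hs hc'
  simp only [f, Prod.mk.injEq] at h
  obtain ⟨h1, h2⟩ := h
  obtain ⟨e1, e2⟩ := fin_lemma _ _ _ _ _ _ _ _ _ _ _ _ b1 b1' h1 h2
  obtain ⟨e3, e4⟩ := sep_lemma s y y' _ _ _ _ hy hy' e2
  have hcc := diff_inj c c' (by omega)
  subst hcc
  subst e4
  have : k = k' := by
    generalize 12 * s ^ 2 * (2 * 2 ^ d + PP c) = X at e1
    generalize 12 * s ^ 2 * QQ c = Y at e1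
    omega
  rw [this]

/-- The main construction. -/
theorem main (d : ℕ) : ∃ w : List Bool, w.length = 144 * 18 ^ d ∧ 81 ^ d ≤ (pairs w).ncard := by
  set s : ℕ := 3 ^ d with hs
  have hs' : 3 ^ d ≤ s := le_of_eq hs.symm
  have hs1 : 1 ≤ s := Nat.one_le_pow _ _ (by norm_num)
  have hN : 144 * 18 ^ d = 2 * (12 * s ^ 2 * (6 * 2 ^ d)) := by
    have e1 : (18 : ℕ) ^ d = 2 ^ d * (3 ^ d) ^ 2 := by
      rw [← pow_mul, mul_comm d 2, pow_mul, ← mul_pow]
      norm_num
    rw [e1, ← hs]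
    ring
  let An : Set (ℕ × ℕ) := {a | ∃ b ∈ Anc d s, a = (2 * b.1, b.1 + b.2)}
  have hne : An.Nonempty := by
    refine ⟨_, (12 * s ^ 2 * (2 * 0) + 0, (s + 1) * (2 * tern 0)), Or.inl (Or.inl ?_), rfl⟩
    exact ⟨0, 0, by positivity, by positivity, rfl⟩
  obtain ⟨S, hS1, hS2, hS3⟩ := extend An hne (by
    rintro a ⟨b, hb, rfl⟩ a' ⟨b', hb', rfl⟩
    have := anc_lip d s hs' b b' hb hb'
    simp only
    omega)
  have hS : ∀ b ∈ Anc d s, S (2 * b.1) = b.1 + b.2 := fun b hb => hS3 _ ⟨b, hb, rfl⟩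
  obtain ⟨w, hw1, hw2⟩ := word_exists S hS1 hS2 (144 * 18 ^ d)
  refine ⟨w, hw1, ?_⟩
  let D : Finset (ℕ × ℕ × ℕ) := Finset.range (3 ^ d) ×ˢ Finset.range (s ^ 2) ×ˢ Finset.range (s + 1)
  have hsub : (f d s) '' (D : Set (ℕ × ℕ × ℕ)) ⊆ pairs w := by
    rintro _ ⟨⟨c, k, y⟩, hx, rfl⟩
    simp only [D, Finset.coe_product, Finset.coe_range, Set.mem_prod, Set.mem_Iio] at hx
    obtain ⟨hc, hk, hy⟩ := hx
    obtain ⟨b1, b2⟩ := bounds d s c hs' hc
    have hpq := PP_add_QQ_lt d c hc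
    -- parameters
    obtain ⟨z, ρ, hz, hρ, hzk⟩ : ∃ z ρ, y + k = 2 * s * z + ρ ∧ ρ < 2 * s ∧ z ≤ s := by
      refine ⟨(y + k) / (2 * s), (y + k) % (2 * s), (Nat.div_add_mod _ _).symm,
        Nat.mod_lt _ (by omega), ?_⟩
      have : (y + k) / (2 * s) < s + 1 := by
        rw [Nat.div_lt_iff_lt_mul (by omega)]
        nlinarith
      omega
    have hky : 4 * s * y ≤ 4 * s ^ 2 := by nlinarith
    have hmul : 2 * s * (s + 2 * y - z) + 2 * s * z = 2 * s ^ 2 + 4 * s * y := by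
      have e : s + 2 * y - z + z = s + 2 * y := by omega
      calc 2 * s * (s + 2 * y - z) + 2 * s * z = 2 * s * (s + 2 * y - z + z) := by ring
        _ = 2 * s ^ 2 + 4 * s * y := by rw [e]; ring
    -- the three anchors
    have a1 : (12 * s ^ 2 * (2 * QQ c) + (2 * s ^ 2 + 4 * s * y + ρ - 2 * k),
        (s + 1) * (2 * tern (QQ c))) ∈ Anc d s :=
      Or.inl (Or.inl ⟨QQ c, 2 * s ^ 2 + 4 * s * y + ρ - 2 * k, by omega, by omega, rfl⟩)
    have a2 : (12 * s ^ 2 * (2 * 2 ^ d + (PP c + QQ c)) + (2 * s * (s + 2 * y - z) + y),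
        (s + 1) * tern (PP c + QQ c) + y) ∈ Anc d s :=
      Or.inl (Or.inr ⟨PP c + QQ c, s + 2 * y - z, y, by omega, by omega, by omega, rfl⟩)
    have a3 : (12 * s ^ 2 * (4 * 2 ^ d + 2 * PP c) + (2 * s ^ 2 + 4 * s * y + ρ),
        (s + 1) * (2 * tern (PP c)) + 2 * y) ∈ Anc d s :=
      Or.inr ⟨PP c, y, ρ, by omega, by omega, by omega, rfl⟩
    have v1 := hS _ a1
    have v2 := hS _ a2
    have v3 := hS _ a3
    simp only at v1 v2 v3
    rw [tern_PP_add_QQ] at v2
    -- abbreviations for the products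
    have m1 : 12 * s ^ 2 * (2 * QQ c) = 2 * (12 * s ^ 2 * QQ c) := by ring
    have m2 : 12 * s ^ 2 * (2 * 2 ^ d + (PP c + QQ c)) =
        12 * s ^ 2 * (2 * 2 ^ d + PP c) + 12 * s ^ 2 * QQ c := by ring
    have m3 : 12 * s ^ 2 * (4 * 2 ^ d + 2 * PP c) = 2 * (12 * s ^ 2 * (2 * 2 ^ d + PP c)) := by ring
    have m4 : (s + 1) * (2 * tern (QQ c)) = 2 * ((s + 1) * tern (QQ c)) := by ring
    have m5 : (s + 1) * (tern (PP c) + tern (QQ c)) =
        (s + 1) * tern (PP c) + (s + 1) * tern (QQ c) := by ring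
    have m6 : (s + 1) * (2 * tern (PP c)) = 2 * ((s + 1) * tern (PP c)) := by ring
    have m7 : 12 * s ^ 2 * (2 * 2 ^ d + PP c) + 12 * s ^ 2 ≤ 12 * s ^ 2 * (3 * 2 ^ d) := by
      calc 12 * s ^ 2 * (2 * 2 ^ d + PP c) + 12 * s ^ 2
          = 12 * s ^ 2 * (2 * 2 ^ d + PP c + 1) := by ring
        _ ≤ 12 * s ^ 2 * (3 * 2 ^ d) := Nat.mul_le_mul_left _ (by omega)
    have m8 : 12 * s ^ 2 * (6 * 2 ^ d) = 2 * (12 * s ^ 2 * (3 * 2 ^ d)) := by ring
    rw [m1, m4] at v1
    rw [m2, m5] at v2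
    rw [m3, m6] at v3
    have hss : s ≤ s ^ 2 := by nlinarith
    set X := 12 * s ^ 2 * (2 * 2 ^ d + PP c) with hX
    set Y := 12 * s ^ 2 * QQ c with hY
    set A := (s + 1) * tern (PP c) with hA
    set B := (s + 1) * tern (QQ c) with hB
    set T := 2 * s * (s + 2 * y - z) with hT
    have hi1 : 2 * (2 * Y + (2 * s ^ 2 + 4 * s * y + ρ - 2 * k)) + 2 * (X + k - Y)
        = 2 * (X + Y + (T + y)) := by omega
    have hi2 : 2 * (2 * Y + (2 * s ^ 2 + 4 * s * y + ρ - 2 * k)) + 2 * (2 * (X + k - Y))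
        = 2 * (2 * X + (2 * s ^ 2 + 4 * s * y + ρ)) := by omega
    have c1 := hw2 (2 * (2 * Y + (2 * s ^ 2 + 4 * s * y + ρ - 2 * k))) (2 * (X + k - Y))
      (by rw [hi1, hN, m8]; omega)
    have c2 := hw2 (2 * (X + Y + (T + y))) (2 * (X + k - Y)) (by rw [hN, m8]; omega)
    have hi3 : 2 * (X + Y + (T + y)) + 2 * (X + k - Y) =
        2 * (2 * X + (2 * s ^ 2 + 4 * s * y + ρ)) := by omega
    refine ⟨2 * (2 * Y + (2 * s ^ 2 + 4 * s * y + ρ - 2 * k)), ?_, ?_, ?_, ?_⟩
    · simp only [f]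
      omega
    · simp only [f]
      rw [hw1, hN, m8]
      omega
    · simp only [f]
      rw [hi1] at c1
      rw [hi1]
      omega
    · simp only [f]
      rw [hi3] at c2
      rw [hi1, hi2]
      omega
  have hcard : ((f d s) '' (D : Set (ℕ × ℕ × ℕ))).ncard = D.card := by
    rw [(f_injOn d s hs').ncard_image, Set.ncard_coe_finset]
  have hle := Set.ncard_le_ncard hsub (pairs_finite w)
  rw [hcard] at hle
  refine le_trans ?_ hle
  simp only [D, Finset.card_product, Finset.card_range]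
  have e1 : (81 : ℕ) ^ d = 3 ^ d * ((3 ^ d) ^ 2 * 3 ^ d) := by
    have : (81 : ℕ) = 3 ^ 4 := by norm_num
    rw [this, ← pow_mul, ← pow_mul, ← pow_add, ← pow_add]
    congr 1
    ring
  rw [e1, ← hs]
  exact Nat.mul_le_mul_left _ (Nat.mul_le_mul_left _ (by omega))

end H11Squares
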