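import Pool.Agent.H11Squares.Defs
import Pool.Agent.H11Squares.Words

namespace H11Squares

/-- counting a letter in a block of a word -/
theorem count_block (w : List Bool) : ∀ (k i : ℕ), i + k ≤ w.length →
    ((w.drop i).take k).count true =
      ((Finset.Ico i (i + k)).filter (fun j => w.getD j false = true)).card := by
  intro k
  induction k with
  | zero => intro i _; simp
  | succ k ih =>
    intro i hi
    have h1 : Finset.Ico i (i + (k + 1)) = insert (i + k) (Finset.Ico i (i + k)) := by
      ext j
      simp only [Finset.mem_Ico, Finset.mem_insert]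
      omega
    have hlt : i + k < w.length := by omega
    have h2 : (w.drop i).take (k + 1) = (w.drop i).take k ++ [w[i + k]] := by
      rw [List.take_add_one]
      congr 1
      rw [List.getElem?_drop, List.getElem?_eq_getElem hlt]
      rfl
    rw [h2, List.count_append, ih i (by omega), h1, Finset.filter_insert]
    have h3 : w.getD (i + k) false = w[i + k] := by
      rw [List.getD_eq_getElem?_getD, List.getElem?_eq_getElem hlt]
      rfl
    rw [h3]
    by_cases hb : w[i + k] = true
    · rw [if_pos hb, Finset.card_insert_of_notMem (by simp), hb]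
      simp
    · rw [if_neg hb]
      simp only [Bool.not_eq_true] at hb
      rw [hb]
      simp

theorem infix_finite {α : Type} (w : List α) : {s : List α | s <:+: w}.Finite := by
  apply Set.Finite.subset (List.finite_toSet w.sublists)
  intro s hs
  exact List.mem_sublists.2 (List.IsInfix.sublist hs)

theorem set_finite (w : List Bool) :
    {p : Bool → ℕ | ∃ s : List Bool, s <:+: w ∧ IsAbelianSquare s ∧ p = parikh s}.Finite := by
  apply Set.Finite.subset ((infix_finite w).image parikh)
  rintro p ⟨s, hs, -, rfl⟩
  exact ⟨s, hs, rfl⟩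

theorem pairs_le (w : List Bool) : (pairs w).ncard ≤ numAbelianSquares w := by
  unfold numAbelianSquares
  apply Set.ncard_le_ncard_of_injOn
    (fun p : ℕ × ℕ => fun b : Bool => if b = true then 2 * p.2 else 2 * (p.1 - p.2))
    (ht := set_finite w)
  · rintro ⟨k, a⟩ ⟨i, h1, h2, h3, h4⟩
    simp only at h1 h2 h3 h4
    have hu : ((w.drop i).take k).length = k := by
      rw [List.length_take, List.length_drop]
      omega
    have hv : ((w.drop (i + k)).take k).length = k := by
      rw [List.length_take, List.length_drop]
      omega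
    have cu : ((w.drop i).take k).count true = a := by
      rw [count_block w k i (by omega), h3]
    have cv : ((w.drop (i + k)).take k).count true = a := by
      rw [count_block w k (i + k) (by omega), ← h4]
      congr 2
      congr 1
      omega
    have fu : ((w.drop i).take k).count false = k - a := by
      have := List.count_false_add_count_true ((w.drop i).take k)
      omega
    have fv : ((w.drop (i + k)).take k).count false = k - a := by
      have := List.count_false_add_count_true ((w.drop (i + k)).take k)
      omega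
    refine ⟨(w.drop i).take k ++ (w.drop (i + k)).take k, ?_, ?_, ?_⟩
    · have e : (w.drop i).take k ++ (w.drop (i + k)).take k = (w.drop i).take (k + k) := by
        rw [← List.drop_drop, ← List.take_add]
      rw [e]
      exact (List.take_prefix _ _).isInfix.trans (List.drop_suffix _ _).isInfix
    · refine ⟨_, _, ?_, ?_, rfl, ?_⟩
      · intro h
        rw [h] at hu
        simp at hu
        omega
      · intro h
        rw [h] at hv
        simp at hv
        omega
      · funext b
        cases b
        · simp only [parikh]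
          rw [fu, fv]
        · simp only [parikh]
          rw [cu, cv]
    · funext b
      cases b
      · simp only [parikh, List.count_append]
        rw [fu, fv]
        simp
        omega
      · simp only [parikh, List.count_append]
        rw [cu, cv]
        simp
        omega
  · rintro ⟨k, a⟩ ⟨i, h1, h2, h3, h4⟩ ⟨k', a'⟩ ⟨i', h1', h2', h3', h4'⟩ h
    simp only at h1 h2 h3 h4 h1' h2' h3' h4'
    have ht := congrFun h true
    have hf := congrFun h false
    simp only [if_true] at ht
    simp only [Bool.false_eq_true, if_false] at hf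
    have ha : a ≤ k := by
      rw [← h3]
      calc _ ≤ (Finset.Ico i (i + k)).card := Finset.card_filter_le _ _
        _ = k := by simp
    have ha' : a' ≤ k' := by
      rw [← h3']
      calc _ ≤ (Finset.Ico i' (i' + k')).card := Finset.card_filter_le _ _
        _ = k' := by simp
    have e1 : a = a' := by omega
    have e2 : k = k' := by omega
    rw [e1, e2]

theorem many (d : ℕ) : ∃ w : List Bool, w.length = 144 * 18 ^ d ∧ 81 ^ d ≤ numAbelianSquares w := by
  obtain ⟨w, h1, h2⟩ := main d
  exact ⟨w, h1, h2.trans (pairs_le w)⟩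

theorem superThreeHalves (C : ℝ) :
    ∃ w : List Bool, C * (w.length : ℝ) ^ ((3 : ℝ) / 2) < (numAbelianSquares w : ℝ) := by
  obtain ⟨d, hd⟩ := pow_unbounded_of_one_lt (C ^ 2 * 144 ^ 3) (show (1 : ℝ) < 9 / 8 by norm_num)
  obtain ⟨w, hw1, hw2⟩ := many d
  refine ⟨w, ?_⟩
  by_contra hcon
  have h1 := not_lt.1 hcon
  have h2 : ((81 : ℝ) ^ d) ≤ C * (w.length : ℝ) ^ ((3 : ℝ) / 2) := by
    refine le_trans ?_ h1
    exact_mod_cast hw2
  have h3 : ((81 : ℝ) ^ d) ^ 2 ≤ (C * (w.length : ℝ) ^ ((3 : ℝ) / 2)) ^ 2 :=
    pow_le_pow_left₀ (by positivity) h2 2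
  have h4 : ((w.length : ℝ) ^ ((3 : ℝ) / 2)) ^ 2 = (w.length : ℝ) ^ 3 := by
    rw [← Real.rpow_natCast, ← Real.rpow_mul (by positivity), ← Real.rpow_natCast]
    norm_num
  rw [mul_pow, h4, hw1] at h3
  push_cast at h3
  have h5 : ((81 : ℝ) ^ d) ^ 2 = (9 / 8) ^ d * (18 ^ d) ^ 3 := by
    rw [← pow_mul, mul_comm d 2, pow_mul, ← pow_mul 18, mul_comm d 3, pow_mul, ← mul_pow]
    norm_num
  rw [h5, mul_pow] at h3
  have h6 : (0 : ℝ) < (18 ^ d) ^ 3 := by positivity
  have h7 : (9 / 8 : ℝ) ^ d ≤ C ^ 2 * 144 ^ 3 := by
    have : (9 / 8 : ℝ) ^ d * (18 ^ d) ^ 3 ≤ (C ^ 2 * 144 ^ 3) * (18 ^ d) ^ 3 := by linarith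
    exact le_of_mul_le_mul_right this h6
  linarith

end H11Squares
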