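import Mathlib

/-!
Abelian squares in words over an arbitrary alphabet.
-/

namespace H11Squares

/-- The Parikh vector of a word. -/
def parikh {α : Type} [DecidableEq α] (x : List α) : α → ℕ := fun a => x.count a

/-- Abelian squares: words `u ++ v` with `u` nonempty and `u`, `v` having the same Parikh
vector (so `v` is nonempty too). -/
def IsAbelianSquare {α : Type} [DecidableEq α] (s : List α) : Prop :=
  ∃ u v : List α, u ≠ [] ∧ v ≠ [] ∧ s = u ++ v ∧ parikh u = parikh v

/-- `N(w)`: the number of distinct Parikh vectors of abelian squares that are factors of `w`. -/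
noncomputable def numAbelianSquares {α : Type} [DecidableEq α] (w : List α) : ℕ :=
  Set.ncard {p : α → ℕ | ∃ s : List α, s <:+: w ∧ IsAbelianSquare s ∧ p = parikh s}

end H11Squares
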